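import Mathlib
import Pool.Agent.K1H88.GT.Stm3
set_option autoImplicit false
/-!
Growth of an integer polynomial on the positive integers.
-/
namespace Pool.Agent.K1H58.GT
open Finset

theorem t_GRO : Pool.Agent.K1H88.GT.S_GRO := by
  intro P
  refine ⟨∑ i ∈ range (P.natDegree + 1), (P.coeff i).natAbs, fun n hn => ?_⟩
  rw [Polynomial.eval_eq_sum_range]
  refine (Finset.abs_sum_le_sum_abs _ _).trans ?_
  push_cast
  rw [Finset.sum_mul]
  refine Finset.sum_le_sum fun i hi => ?_
  rw [abs_mul, abs_pow, Nat.abs_cast]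
  have h1 : (1 : ℤ) ≤ n := by exact_mod_cast hn
  exact mul_le_mul_of_nonneg_left
    (pow_le_pow_right₀ h1 (Nat.lt_succ_iff.1 (Finset.mem_range.1 hi))) (abs_nonneg _)

end Pool.Agent.K1H58.GT
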